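import Mathlib

/-!
# An explicit finite basis for the variety generated by `C₃ˢ`

We show that eleven explicit identities form an equational basis of the variety generated by the
three-element involutive unital band `C₃ˢ`.

In a model `A` of these identities, for every `e` of the form `⊤_a` the elements `a` with
`⊤_a = e` form a Boolean algebra, and every ultrafilter of this Boolean algebra induces
a homomorphism from the subalgebra `{a : ⊤_a e = e}` onto a subalgebra of `C₃ˢ`.
-/

namespace Pool.Agent.Results.MP_7f507d_al.FiniteBasis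

universe u

/-- Algebras of type `(2, 1, 0)` with operations `·`, `¬`, `1`. -/
class Alg (A : Type u) extends Mul A, Neg A, One A

/-- Terms of type `(2, 1, 0)` in the variables `x_0, x_1, …`. -/
inductive Term : Type
  | var : ℕ → Term
  | mul : Term → Term → Term
  | neg : Term → Term
  | one : Term

/-- The value of a term in an algebra under an assignment. -/
def Term.eval {A : Type u} [Alg A] (v : ℕ → A) : Term → A
  | .var i => v i
  | .mul s t => s.eval v * t.eval v
  | .neg s => -(s.eval v)
  | .one => 1

/-- The identity `s ≈ t` holds in the algebra `A`. -/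
def HoldsIn (A : Type u) [Alg A] (s t : Term) : Prop :=
  ∀ v : ℕ → A, s.eval v = t.eval v

/-- The identity `s ≈ t` is an equational consequence of the identities in the list `Γ`: it holds
in all algebras that satisfy `Γ`. -/
def IsConsequence (Γ : List (Term × Term)) (s t : Term) : Prop :=
  ∀ (A : Type u) [Alg A], (∀ e ∈ Γ, HoldsIn A e.1 e.2) → HoldsIn A s t

/-- The three elements of `C₃ˢ`. -/
inductive C3 : Type
  | one : C3
  | c : C3
  | negc : C3
  deriving DecidableEq

/-- The algebra `C₃ˢ`: a semilattice that is the chain `¬c < c < 1`, with `¬` fixing `1` and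
exchanging `c` and `¬c`. -/
instance : Alg C3 where
  mul
    | .one, y => y
    | x, .one => x
    | .c, .c => .c
    | _, _ => .negc
  neg
    | .one => .one
    | .c => .negc
    | .negc => .c
  one := .one

/-- The term `⊤_t = ¬(¬t · t)`. -/
def Term.top (t : Term) : Term := .neg (.mul (.neg t) t)

/-- The term `⊥_t = t · ¬t`. -/
def Term.bot (t : Term) : Term := .mul t (.neg t)

/-- the variable `x` -/
abbrev x : Term := .var 0
/-- the variable `y` -/
abbrev y : Term := .var 1
/-- the variable `z` -/
abbrev z : Term := .var 2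

/-- The explicit finite basis. -/
def basis : List (Term × Term) :=
  [ -- `(xy)z ≈ x(yz)`
    (.mul (.mul x y) z, .mul x (.mul y z)),
    -- `xy ≈ yx`
    (.mul x y, .mul y x),
    -- `xx ≈ x`
    (.mul x x, x),
    -- `1x ≈ x`
    (.mul .one x, x),
    -- `¬¬x ≈ x`
    (.neg (.neg x), x),
    -- `¬1 ≈ 1`
    (.neg .one, .one),
    -- `⊤_x x ≈ x`
    (.mul x.top x, x),
    -- `⊤_{xy} ≈ ⊤_x ⊤_y`
    ((Term.mul x y).top, .mul x.top y.top),
    -- `⊥_{xy} ≈ ⊥_x ⊥_y`
    ((Term.mul x y).bot, .mul x.bot y.bot),
    -- `x ¬(xy) ≈ x ¬(y ⊤_x)`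
    (.mul x (.neg (.mul x y)), .mul x (.neg (.mul y x.top))),
    -- `(¬x) ⊤_y ≈ ¬(x ⊤_y ¬(⊥_x ⊤_y))`
    (.mul (.neg x) y.top, .neg (.mul (.mul x y.top) (.neg (.mul x.bot y.top)))) ]

/-! ### Soundness -/

theorem sound : ∀ e ∈ basis, HoldsIn C3 e.1 e.2 := by
  intro e he v
  simp only [basis, List.mem_cons, List.not_mem_nil, or_false] at he
  rcases he with rfl | rfl | rfl | rfl | rfl | rfl | rfl | rfl | rfl | rfl | rfl <;>
  · simp only [Term.eval, Term.top, Term.bot]
    generalize v 0 = a
    generalize v 1 = b
    generalize v 2 = d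
    cases a <;> cases b <;> cases d <;> rfl

/-! ### Working in a model of the basis -/

section model

variable {A : Type u} [Alg A]

/-- the element `⊤_a` -/
def top (a : A) : A := -(-a * a)

/-- the element `⊥_a` -/
def bot (a : A) : A := a * -a

/-- the basis as a list of laws -/
structure Laws (A : Type u) [Alg A] : Prop where
  assoc : ∀ a b d : A, (a * b) * d = a * (b * d)
  comm : ∀ a b : A, a * b = b * a
  idem : ∀ a : A, a * a = a
  one_mul : ∀ a : A, 1 * a = a
  neg_neg : ∀ a : A, -(-a) = a
  neg_one : -(1 : A) = 1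
  top_mul_self : ∀ a : A, top a * a = a
  top_mul : ∀ a b : A, top (a * b) = top a * top b
  bot_mul : ∀ a b : A, bot (a * b) = bot a * bot b
  pseudo : ∀ a b : A, a * -(a * b) = a * -(b * top a)
  neg_mul_top : ∀ a b : A, -a * top b = -((a * top b) * -(bot a * top b))

theorem laws_of_models (h : ∀ e ∈ basis, HoldsIn A e.1 e.2) : Laws A := by
  have H : ∀ e ∈ basis, ∀ a b d : A,
      e.1.eval (fun n => if n = 0 then a else if n = 1 then b else d) =
        e.2.eval (fun n => if n = 0 then a else if n = 1 then b else d) :=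
    fun e he a b d => h e he _
  simp only [basis, List.forall_mem_cons, List.not_mem_nil, false_imp_iff, implies_true,
    and_true, Term.eval, Term.top, Term.bot, if_true, one_ne_zero, if_false,
    OfNat.ofNat_ne_zero, OfNat.ofNat_ne_one] at H
  obtain ⟨h1, h2, h3, h4, h5, h6, h7, h8, h9, h10, h11⟩ := H
  exact
    { assoc := h1
      comm := fun a b => h2 a b a
      idem := fun a => h3 a a a
      one_mul := fun a => h4 a a a
      neg_neg := fun a => h5 a a a
      neg_one := h6 1 1 1
      top_mul_self := fun a => h7 a a a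
      top_mul := fun a b => h8 a b a
      bot_mul := fun a b => h9 a b a
      pseudo := fun a b => h10 a b a
      neg_mul_top := fun a b => h11 a b a }

variable (L : Laws A)

include L

theorem bot_neg (a : A) : bot (-a) = bot a := by
  unfold bot; rw [L.neg_neg, L.comm]

theorem top_eq (a : A) : top a = -(bot a) := by
  unfold top bot; rw [L.comm]

theorem bot_eq (a : A) : bot a = -(top a) := by
  rw [top_eq L, L.neg_neg]

theorem top_neg (a : A) : top (-a) = top a := by
  rw [top_eq L, bot_neg L, ← top_eq L]

theorem top_bot (a : A) : top (bot a) = top a := by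
  unfold bot; rw [L.top_mul, top_neg L, L.idem]

theorem top_top (a : A) : top (top a) = top a := by
  rw [top_eq L a, top_neg L, top_bot L]
  exact top_eq L a

theorem top_one : top (1 : A) = 1 := by
  unfold top; rw [L.neg_one, L.idem, L.neg_one]

theorem mul_top (a : A) : a * top a = a := by rw [L.comm]; exact L.top_mul_self a

/-- Separation by ultrafilters in the Boolean algebra `{a : ⊤_a = e}`. -/
theorem exists_ultra (e s t : A) (hs : top s = e) (ht : top t = e) (hst : s * t ≠ s) :
    ∃ F : Set A, s ∈ F ∧ t ∉ F ∧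
      (∀ a b, top a = e → top b = e → (a * b ∈ F ↔ a ∈ F ∧ b ∈ F)) ∧
      (∀ a, top a = e → (-a ∈ F ↔ a ∉ F)) := by
  have he : top e = e := by rw [← hs]; exact top_top L s
  have hB : ∀ a b, top a = e → top b = e → top (a * b) = e := by
    intro a b ha hb; rw [L.top_mul, ha, hb, L.idem]
  have hN : ∀ a, top a = e → top (-a) = e := by
    intro a ha; rw [top_neg L, ha]
  have hbot : ∀ a, top a = e → a * -a = -e := by
    intro a ha
    rw [← ha]; exact bot_eq L a
  have hunit : ∀ a, top a = e → a * e = a := by
    intro a ha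
    rw [← ha]; exact mul_top L a
  have hps : ∀ a b, top a = e → top b = e → a * -(a * b) = a * -b := by
    intro a b ha hb
    rw [L.pseudo, ha, hunit b hb]
  have himp : ∀ a b, top a = e → top b = e → a * b = -e → a * -b = a := by
    intro a b ha hb hab
    rw [← hps a b ha hb, hab, L.neg_neg, hunit a ha]
  have hw : s * -t ≠ -e := by
    intro h
    apply hst
    have := himp s (-t) hs (hN t ht) h
    rwa [L.neg_neg] at this
  set w := s * -t with hwdef
  have hwe : top w = e := hB _ _ hs (hN t ht)
  -- the filters
  let P : Set (Set A) := {F | (∀ a ∈ F, top a = e) ∧ w ∈ F ∧ -e ∉ F ∧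
    (∀ a ∈ F, ∀ b ∈ F, a * b ∈ F) ∧ (∀ a ∈ F, ∀ b, top b = e → a * b = a → b ∈ F)}
  have hchain : ∀ C ⊆ P, IsChain (· ⊆ ·) C → C.Nonempty → ∃ ub ∈ P, ∀ s ∈ C, s ⊆ ub := by
    intro C hC hch ⟨F0, hF0⟩
    refine ⟨⋃₀ C, ⟨?_, ?_, ?_, ?_, ?_⟩, fun F hF => Set.subset_sUnion_of_mem hF⟩
    · rintro a ⟨F, hF, ha⟩
      exact (hC hF).1 a ha
    · exact ⟨F0, hF0, (hC hF0).2.1⟩
    · rintro ⟨F, hF, ha⟩
      exact (hC hF).2.2.1 ha
    · rintro a ⟨F, hF, ha⟩ b ⟨F', hF', hb⟩
      rcases hch.total hF hF' with hsub | hsub
      · exact ⟨F', hF', (hC hF').2.2.2.1 a (hsub ha) b hb⟩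
      · exact ⟨F, hF, (hC hF).2.2.2.1 a ha b (hsub hb)⟩
    · rintro a ⟨F, hF, ha⟩ b hb hab
      exact ⟨F, hF, (hC hF).2.2.2.2 a ha b hb hab⟩
  have hbase : {a | top a = e ∧ w * a = w} ∈ P := by
    refine ⟨fun a ha => ha.1, ⟨hwe, L.idem w⟩, ?_, ?_, ?_⟩
    · rintro ⟨_, h⟩
      have e2 : w * -e = -e := by rw [← hbot w hwe, ← L.assoc, L.idem]
      exact hw (h.symm.trans e2)
    · rintro a ⟨ha1, ha2⟩ b ⟨hb1, hb2⟩
      exact ⟨hB a b ha1 hb1, by rw [← L.assoc, ha2, hb2]⟩
    · rintro a ⟨ha1, ha2⟩ b hb hab
      refine ⟨hb, ?_⟩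
      rw [← ha2, L.assoc, hab]
  obtain ⟨F, _, hmax⟩ := zorn_subset_nonempty P hchain _ hbase
  obtain ⟨hF1, hF2, hF3, hF4, hF5⟩ := hmax.prop
  have hmul : ∀ a b, top a = e → top b = e → (a * b ∈ F ↔ a ∈ F ∧ b ∈ F) := by
    intro a b ha hb
    constructor
    · intro h
      constructor
      · exact hF5 _ h a ha (by rw [L.comm a b, L.assoc, L.idem])
      · exact hF5 _ h b hb (by rw [L.assoc, L.idem])
    · rintro ⟨h1, h2⟩
      exact hF4 a h1 b h2
  have hneg : ∀ a, top a = e → (-a ∈ F ↔ a ∉ F) := by
    intro a ha
    constructor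
    · intro h1 h2
      have := hF4 a h2 _ h1
      rw [hbot a ha] at this
      exact hF3 this
    · intro h
      -- the filter generated by `F` and `a`
      by_cases hcase : ∃ f ∈ F, f * a = -e
      · obtain ⟨f, hf, hfa⟩ := hcase
        exact hF5 f hf _ (hN a ha) (himp f a (hF1 f hf) ha hfa)
      · exfalso
        push Not at hcase
        let F' : Set A := {b | top b = e ∧ ∃ f ∈ F, (f * a) * b = f * a}
        have hF' : F' ∈ P := by
          refine ⟨fun b hb => hb.1, ⟨hwe, w, hF2, ?_⟩, ?_, ?_, ?_⟩
          · rw [L.assoc, L.comm a w, ← L.assoc, L.idem]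
          · rintro ⟨_, f, hf, h'⟩
            apply hcase f hf
            have hfa := hB f a (hF1 f hf) ha
            rw [← h', ← hbot _ hfa, ← L.assoc, L.idem]
          · rintro b ⟨hb1, f, hf, hb2⟩ d ⟨hd1, g, hg, hd2⟩
            refine ⟨hB b d hb1 hd1, f * g, hF4 f hf g hg, ?_⟩
            have e1 : (f * g) * a = (f * a) * (g * a) := by
              rw [L.assoc f a, L.comm a (g * a), L.assoc g a a, L.idem, L.assoc]
            have e2 : ((f * g) * a) * (b * d) = ((f * a) * b) * ((g * a) * d) := by
              rw [e1, L.assoc (f * a), L.assoc (f * a), ← L.assoc (g * a), L.comm (g * a) b,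
                L.assoc b]
            rw [e2, hb2, hd2, e1]
          · rintro b ⟨hb1, f, hf, hb2⟩ d hd hbd
            refine ⟨hd, f, hf, ?_⟩
            rw [← hb2, L.assoc (f * a), hbd]
        have hsub : F ⊆ F' := by
          intro f hf
          refine ⟨hF1 f hf, f, hf, ?_⟩
          rw [L.comm f a, L.assoc, L.idem]
        have hle := hmax.le_of_ge hF' hsub
        apply h
        apply hle
        refine ⟨ha, w, hF2, ?_⟩
        rw [L.assoc, L.idem]
  have hw' := (hmul s (-t) hs (hN t ht)).1 hF2
  exact ⟨F, hw'.1, (hneg t ht).1 hw'.2, hmul, hneg⟩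

end model

/-- the variables of a term -/
def Term.vars : Term → Set ℕ
  | .var i => {i}
  | .mul s t => s.vars ∪ t.vars
  | .neg s => s.vars
  | .one => ∅

section model2

variable {A : Type u} [Alg A]

theorem top_le_of_vars (L : Laws A) (v : ℕ → A) (e : A) (t : Term)
    (h : ∀ i ∈ t.vars, e * top (v i) = e) : e * top (t.eval v) = e := by
  induction t with
  | var i => exact h i rfl
  | mul s t hs ht =>
    simp only [Term.eval]
    rw [L.top_mul, ← L.assoc, hs fun i hi => h i (Or.inl hi), ht fun i hi => h i (Or.inr hi)]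
  | neg s hs =>
    simp only [Term.eval]
    rw [top_neg L, hs h]
  | one =>
    simp only [Term.eval]
    rw [top_one L, L.comm, L.one_mul]

theorem top_var_le (L : Laws A) (v : ℕ → A) (t : Term) (i : ℕ) (hi : i ∈ t.vars) :
    top (t.eval v) * top (v i) = top (t.eval v) := by
  induction t with
  | var j =>
    have : i = j := hi
    subst this
    exact L.idem _
  | mul s t hs ht =>
    simp only [Term.eval]
    rw [L.top_mul, L.assoc]
    rcases hi with hi | hi
    · rw [L.comm (top (t.eval v)), ← L.assoc, hs hi]
    · rw [ht hi]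
  | neg s hs =>
    simp only [Term.eval]
    rw [top_neg L, hs hi]
  | one => exact absurd hi (Set.notMem_empty i)

theorem top_eq_of_vars (L : Laws A) (v : ℕ → A) (s t : Term) (h : s.vars = t.vars) :
    top (s.eval v) = top (t.eval v) := by
  have h1 : top (s.eval v) * top (t.eval v) = top (s.eval v) :=
    top_le_of_vars L v _ t fun i hi => top_var_le L v s i (by rw [h]; exact hi)
  have h2 : top (t.eval v) * top (s.eval v) = top (t.eval v) :=
    top_le_of_vars L v _ s fun i hi => top_var_le L v t i (by rw [← h]; exact hi)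
  rw [← h1, L.comm, h2]

open Classical in
/-- the homomorphism induced by an ultrafilter -/
noncomputable def hom (e : A) (F : Set A) (a : A) : C3 :=
  if bot a * e ∈ F then .one else if a * e ∈ F then .c else .negc

theorem hom_eval (L : Laws A) (e : A) (F : Set A) (he : top e = e) (heF : e ∈ F)
    (hmul : ∀ a b, top a = e → top b = e → (a * b ∈ F ↔ a ∈ F ∧ b ∈ F))
    (hneg : ∀ a, top a = e → (-a ∈ F ↔ a ∉ F)) (v : ℕ → A) (t : Term)
    (h : ∀ i ∈ t.vars, e * top (v i) = e) :
    hom e F (t.eval v) = t.eval (fun i => hom e F (v i)) := by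
  classical
  have hD1 : ∀ a, e * top a = e → top (a * e) = e := by
    intro a ha; rw [L.top_mul, he, L.comm, ha]
  have hD2 : ∀ a, e * top a = e → top (bot a * e) = e := by
    intro a ha; rw [L.top_mul, he, top_bot L, L.comm, ha]
  induction t with
  | var i => rfl
  | mul s t hs ht =>
    have es := top_le_of_vars L v e s fun i hi => h i (Or.inl hi)
    have et := top_le_of_vars L v e t fun i hi => h i (Or.inr hi)
    have ihs := hs fun i hi => h i (Or.inl hi)
    have iht := ht fun i hi => h i (Or.inr hi)
    simp only [Term.eval]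
    rw [← ihs, ← iht]
    generalize s.eval v = a at *
    generalize t.eval v = b at *
    have k1 : bot (a * b) * e ∈ F ↔ bot a * e ∈ F ∧ bot b * e ∈ F := by
      rw [← hmul _ _ (hD2 a es) (hD2 b et), L.bot_mul]
      have : bot a * e * (bot b * e) = bot a * bot b * e := by
        rw [L.comm (bot b) e, L.assoc, ← L.assoc e e, L.idem, L.comm e, ← L.assoc]
      rw [this]
    have k2 : (a * b) * e ∈ F ↔ a * e ∈ F ∧ b * e ∈ F := by
      rw [← hmul _ _ (hD1 a es) (hD1 b et)]
      have : a * e * (b * e) = a * b * e := by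
        rw [L.comm b e, L.assoc, ← L.assoc e e, L.idem, L.comm e, ← L.assoc]
      rw [this]
    have k3 : ∀ d, e * top d = e → bot d * e ∈ F → d * e ∈ F := by
      intro d hd hdF
      have : bot d * e = (bot d * e) * (d * e) := by
        rw [L.comm d e, L.assoc, ← L.assoc e e, L.idem, L.comm e d, ← L.assoc]
        unfold bot
        rw [L.comm d (-d), L.assoc (-d) d d, L.idem]
      rw [this] at hdF
      exact ((hmul _ _ (hD2 d hd) (hD1 d hd)).1 hdF).2
    have ka := k3 a es
    have kb := k3 b et
    unfold hom
    simp only [k1, k2]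
    by_cases a1 : bot a * e ∈ F <;> by_cases b1 : bot b * e ∈ F <;>
      by_cases a2 : a * e ∈ F <;> by_cases b2 : b * e ∈ F <;>
      simp only [a1, b1, a2, b2, if_true, if_false, and_true, and_false, and_self] <;> first | rfl | exact absurd (ka a1) a2 | exact absurd (kb b1) b2
  | neg s hs =>
    have es := top_le_of_vars L v e s fun i hi => h i hi
    have ihs := hs fun i hi => h i hi
    simp only [Term.eval]
    rw [← ihs]
    generalize s.eval v = a at *
    have k1 : bot (-a) * e ∈ F ↔ bot a * e ∈ F := by rw [bot_neg L]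
    have k2 : -a * e ∈ F ↔ ¬ (a * e ∈ F ∧ bot a * e ∉ F) := by
      have e1 : -a * e = -((a * e) * -(bot a * e)) := by
        have := L.neg_mul_top a e
        rwa [he] at this
      have t1 : top (-(bot a * e)) = e := by rw [top_neg L]; exact hD2 a es
      have t2 : top ((a * e) * -(bot a * e)) = e := by
        rw [L.top_mul, hD1 a es, t1, L.idem]
      rw [e1, hneg _ t2, hmul _ _ (hD1 a es) t1, hneg _ (hD2 a es)]
    unfold hom
    simp only [k1, k2]
    by_cases a1 : bot a * e ∈ F <;> by_cases a2 : a * e ∈ F <;>
      simp only [a1, a2, if_true, if_false, and_true, and_false, not_true, not_false_iff] <;> rfl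
  | one =>
    simp only [Term.eval]
    have : bot (1 : A) * e = e := by
      unfold bot; rw [L.neg_one, L.idem, L.one_mul]
    unfold hom
    rw [this, if_pos heF]
    rfl

/-- key step: the values are comparable -/
theorem le_of_holds (L : Laws A) (s t : Term) (h : HoldsIn C3 s t) (hv : s.vars = t.vars)
    (v : ℕ → A) : s.eval v * t.eval v = s.eval v := by
  by_contra hcon
  have ht : top (t.eval v) = top (s.eval v) := (top_eq_of_vars L v s t hv).symm
  obtain ⟨F, hF1, hF2, hmul, hneg⟩ := exists_ultra L (top (s.eval v)) _ _ rfl ht hcon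
  have he := top_top L (s.eval v)
  have heF : top (s.eval v) ∈ F := by
    have h1 : s.eval v * top (s.eval v) ∈ F := by rw [mul_top L]; exact hF1
    exact ((hmul _ _ rfl he).1 h1).2
  have hs1 := hom_eval L (top (s.eval v)) F he heF hmul hneg v s
    (fun i hi => top_var_le L v s i hi)
  have ht1 := hom_eval L (top (s.eval v)) F he heF hmul hneg v t
    (fun i hi => top_var_le L v s i (by rw [hv]; exact hi))
  have heq := h (fun i => hom (top (s.eval v)) F (v i))
  rw [← hs1, ← ht1] at heq
  have hz : -(top (s.eval v)) ∉ F := fun hz => (hneg _ he).1 hz heF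
  have b1 : ∀ a, top a = top (s.eval v) → bot a * top (s.eval v) ∉ F := by
    intro a ha hb
    have t1 : top (bot a) = top (s.eval v) := by rw [top_bot L, ha]
    have := ((hmul _ _ t1 he).1 hb).1
    rw [bot_eq L, ha] at this
    exact hz this
  have c1 : s.eval v * top (s.eval v) ∈ F := by rw [mul_top L]; exact hF1
  have c2 : t.eval v * top (s.eval v) ∉ F := by
    rw [← ht, mul_top L]; exact hF2
  unfold hom at heq
  rw [if_neg (b1 _ rfl), if_pos c1, if_neg (b1 _ ht), if_neg c2] at heq
  cases heq

end model2

/-- In `C₃ˢ` the value of a term is `1` iff all its variables have the value `1`. -/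
theorem eval_one_iff (v : ℕ → C3) (t : Term) : t.eval v = C3.one ↔ ∀ i ∈ t.vars, v i = C3.one := by
  induction t with
  | var i => simp [Term.eval, Term.vars]
  | mul s t hs ht =>
    have key : ∀ a b : C3, a * b = C3.one ↔ a = C3.one ∧ b = C3.one := by
      intro a b
      revert a b
      have h : ∀ a b : C3, a * b = C3.one → a = C3.one ∧ b = C3.one := by
        intro a b h
        cases a <;> cases b <;> first | exact ⟨rfl, rfl⟩ | exact absurd h (by decide)
      intro a b
      refine ⟨h a b, ?_⟩
      rintro ⟨rfl, rfl⟩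
      rfl
    simp only [Term.eval, Term.vars]
    rw [key, hs, ht]
    constructor
    · rintro ⟨h1, h2⟩ i (hi | hi)
      · exact h1 i hi
      · exact h2 i hi
    · intro h
      exact ⟨fun i hi => h i (Or.inl hi), fun i hi => h i (Or.inr hi)⟩
  | neg s hs =>
    have key : ∀ a : C3, -a = C3.one ↔ a = C3.one := by
      intro a
      cases a
      · exact ⟨fun _ => rfl, fun _ => rfl⟩
      · exact ⟨fun h => absurd h (by decide), fun h => absurd h (by decide)⟩
      · exact ⟨fun h => absurd h (by decide), fun h => absurd h (by decide)⟩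
    simp only [Term.eval, Term.vars]
    rw [key, hs]
  | one =>
    simp only [Term.eval, Term.vars]
    constructor
    · intro _ i hi
      exact absurd hi (Set.notMem_empty i)
    · intro _
      rfl

theorem vars_eq_of_holds (s t : Term) (h : HoldsIn C3 s t) : s.vars = t.vars := by
  classical
  have key : ∀ s t : Term, HoldsIn C3 s t → s.vars ⊆ t.vars := by
    intro s t h i hi
    by_contra hcon
    have h1 := h (fun j => if j = i then C3.c else C3.one)
    have h2 : t.eval (fun j => if j = i then C3.c else C3.one) = C3.one := by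
      rw [eval_one_iff]
      intro j hj
      have : j ≠ i := fun hji => hcon (hji ▸ hj)
      simp [this]
    rw [h2, eval_one_iff] at h1
    have := h1 i hi
    simp at this
  exact Set.Subset.antisymm (key s t h) (key t s fun v => (h v).symm)

/-- Every identity of `C₃ˢ` holds in all models of the basis. -/
theorem complete {A : Type u} [Alg A] (hA : ∀ e ∈ basis, HoldsIn A e.1 e.2) (s t : Term)
    (h : HoldsIn C3 s t) : HoldsIn A s t := by
  intro v
  have L := laws_of_models hA
  have hv := vars_eq_of_holds s t h
  have h1 := le_of_holds L s t h hv v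
  have h2 := le_of_holds L t s (fun w => (h w).symm) hv.symm v
  rw [← h1, L.comm, h2]

instance : Alg (ULift.{u} C3) where
  mul a b := ⟨a.down * b.down⟩
  neg a := ⟨-a.down⟩
  one := ⟨1⟩

theorem eval_ulift (v : ℕ → ULift.{u} C3) (t : Term) :
    (t.eval v).down = t.eval (fun i => (v i).down) := by
  induction t with
  | var i => rfl
  | mul s t hs ht => simp only [Term.eval, ← hs, ← ht]; rfl
  | neg s hs => simp only [Term.eval, ← hs]; rfl
  | one => rfl

/-- **Theorem.**  The identities of the explicit finite list `basis` form an equational basis of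
the variety generated by `C₃ˢ`: their equational consequences are exactly the identities that
hold in `C₃ˢ`. -/
theorem result (s t : Term) : IsConsequence.{u} basis s t ↔ HoldsIn C3 s t := by
  constructor
  · intro h v
    have h1 := h (ULift.{u} C3) (by
      intro e he w
      apply ULift.ext
      rw [eval_ulift, eval_ulift]
      exact sound e he _) (fun i => ⟨v i⟩)
    have h2 := congrArg ULift.down h1
    rwa [eval_ulift, eval_ulift] at h2
  · intro h A _ hA
    exact complete hA s t h

end Pool.Agent.Results.MP_7f507d_al.FiniteBasis
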